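import Pool.Agent.Helper56.M7.Step0
import Pool.Agent.Helper26.M7.Words4

/-!
The word `W0` at a side with seven vertices. (Problem MP_d067c8_co.)
-/

namespace Pool.Agent.Helper51.M7

open Finset Pool.Agent.Helper19.CF Pool.Agent.Helper19.RG Pool.Agent.Helper26.M7

variable {N : ℕ} [NeZero N] {f : Equiv.Perm (ZMod N)} {c d : ZMod N}

/-- A word with six spokes. -/
def w0q (x1 x2 x3 x4 x5 x6 : ZMod N) (i : ℤ) : ZMod N :=
  if i = 1 then x1 else if i = 2 then x2 else if i = 3 then x3 else if i = 4 then x4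
  else if i = 5 then x5 else x6

/-- Colours of the columns. -/
def w0A (p : ℕ) : ℕ := if p = 0 then 0 else p + 1

/-- Colours of the rows; `y` is the position of the row of the star. -/
def w0B (y p : ℕ) : ℕ := if 2 ≤ p ∧ p < y then p + 1 else p

/-- A boundary condition read at the four ends of a box. -/
theorem box_ends (hb : Bad f) {X : Finset (ZMod N ⊕ ZMod N)} {p q r s : ℕ}
    (hbox : Box X c d p q r s) {P : ZMod N ⊕ ZMod N → Prop}
    (hbd : ∀ u ∈ X, ∀ v ∉ X, (permGraph N f).Adj u v → P u) :
    P (.inl (c + (p : ZMod N))) ∧ P (.inl (c + (q : ZMod N))) ∧ P (.inr (d + (r : ZMod N))) ∧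
      P (.inr (d + (s : ZMod N))) := by
  have hN := hb.hN
  have h1 := hbox.p1
  have h2 := hbox.r1
  have h3 := hbox.pq
  have h4 := hbox.rs
  have h5 := hbox.qN
  have h6 := hbox.sN
  have cp := pos_nat c (j := p) (by omega)
  have cq := pos_nat c (j := q) (by omega)
  have dr := pos_nat d (j := r) (by omega)
  have ds := pos_nat d (j := s) (by omega)
  have nxt : ∀ (c0 : ZMod N) (j : ℕ), j < N → (c0 + (j : ZMod N) + 1 - c0).val = j + 1 ∨
      (c0 + (j : ZMod N) + 1 - c0).val = 0 := by
    intro c0 j hj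
    rcases Nat.lt_or_ge (j + 1) N with g | g
    · left
      have e := pos_nat c0 (j := j + 1) g
      rw [← e]
      congr 1
      push_cast
      ring
    · right
      have e : j + 1 = N := by omega
      have e1 : c0 + (j : ZMod N) + 1 - c0 = ((j + 1 : ℕ) : ZMod N) := by
        push_cast
        ring
      rw [e1, e, ZMod.natCast_self, ZMod.val_zero]
  refine ⟨?_, ?_, ?_, ?_⟩
  · refine hbd _ ((hbox.memA _).mpr (by omega)) (.inl (c + (p : ZMod N) - 1)) ?_ (adjA' hb _)
    rw [hbox.memA, Pool.Agent.Helper26.M7.pos_pred hN c _ (by omega)]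
    omega
  · refine hbd _ ((hbox.memA _).mpr (by omega)) (.inl (c + (q : ZMod N) + 1)) ?_ (adjA hb _)
    rw [hbox.memA]
    have := nxt c q h5
    omega
  · refine hbd _ ((hbox.memB _).mpr (by omega)) (.inr (d + (r : ZMod N) - 1)) ?_ (adjB' hb _)
    rw [hbox.memB, Pool.Agent.Helper26.M7.pos_pred hN d _ (by omega)]
    omega
  · refine hbd _ ((hbox.memB _).mpr (by omega)) (.inr (d + (s : ZMod N) + 1)) ?_ (adjB hb _)
    rw [hbox.memB]
    have := nxt d s h6
    omega

/-- The word `W0`. -/
theorem w0_qz (hb : Bad f) (h : M7 f c d) (hw : (f.symm (f c - 1) - c).val % 2 = 1) :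
    QZ f 1 6 (w0q (f.symm (f c - 1)) c (c + 1) (c - 2) (c - 1) (f.symm (d - 1)))
      (fun x => decide (w0A (x - c).val % 2 = 0))
      (fun x => decide (w0B (f c - d).val (x - d).val % 2 = 0)) ∧
      5 ≤ (f c - d).val ∧ (f c - d).val + 2 ≤ N ∧ (f c - d).val % 2 = 1 ∧
      (f.symm (d - 1) - c).val ≠ 0 ∧ (f.symm (d - 1) - c).val % 2 = 0 := by
  have hN := hb.hN
  have hodd := hb.hodd
  obtain ⟨s1, s2, s3, s4, s5⟩ := h.step0 hb
  obtain ⟨y1, y2⟩ := h.y_ne hb
  -- positions
  have c0 := pos_zero c
  have c1 := pos_one hN c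
  have cm1 := pos_m1 hN c
  have cm2 := pos_m2 hN c
  have r0 := pos_zero d
  have r1 := pos_one hN d
  have r2 := pos_two hN d
  have r3 := pos_three hN d
  have rm := pos_m1 hN d
  have hyN := ZMod.val_lt (f c - d)
  set xw := f.symm (f c - 1) with hxw
  set xv := f.symm (d - 1) with hxv
  have hfw : f xw = f c - 1 := by rw [hxw, Equiv.apply_symm_apply]
  have hfv : f xv = d - 1 := by rw [hxv, Equiv.apply_symm_apply]
  -- the row of the star
  have n1 : (f c - d).val ≠ 1 := by
    intro e
    have e1 : f c = f (c + 1) := by rw [h.g]; exact pos_inj d (by omega)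
    have e2 := congrArg (fun z => (z - c).val) (f.injective e1)
    omega
  have n3 : (f c - d).val ≠ 3 := by
    intro e
    exact y1 (pos_inj d (by omega))
  have nm : (f c - d).val ≠ N - 1 := by omega
  have ry := Pool.Agent.Helper26.M7.pos_pred hN d (f c) (by omega)
  have v0 : (xv - c).val ≠ 0 := by
    intro e
    have : xv = c := pos_inj c (by omega)
    rw [this] at hfv
    exact y2 hfv
  have hy5 : 5 ≤ (f c - d).val := by omega
  -- the word
  have q1 : w0q xw c (c + 1) (c - 2) (c - 1) xv 1 = xw := by simp [w0q]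
  have q2 : w0q xw c (c + 1) (c - 2) (c - 1) xv 2 = c := by simp [w0q]
  have q3 : w0q xw c (c + 1) (c - 2) (c - 1) xv 3 = c + 1 := by simp [w0q]
  have q4 : w0q xw c (c + 1) (c - 2) (c - 1) xv 4 = c - 2 := by simp [w0q]
  have q5 : w0q xw c (c + 1) (c - 2) (c - 1) xv 5 = c - 1 := by simp [w0q]
  have q6 : w0q xw c (c + 1) (c - 2) (c - 1) xv 6 = xv := by simp [w0q]
  have hcase : ∀ i : ℤ, 1 ≤ i → i ≤ 6 → i = 1 ∨ i = 2 ∨ i = 3 ∨ i = 4 ∨ i = 5 ∨ i = 6 := by
    intro i _ _
    omega
  refine ⟨?_, hy5, by omega, s5, v0, s2⟩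
  refine qz_pos (c := c) (d := d) w0A (w0B (f c - d).val) (by norm_num) ?_ ?_ ?_ ?_ ?_ ?_
  · intro i i' h1 h2 h3 h4 e
    have e' := congrArg (fun z => (f z - d).val) e
    rcases hcase i h1 h2 with rfl | rfl | rfl | rfl | rfl | rfl <;>
      rcases hcase i' h3 h4 with rfl | rfl | rfl | rfl | rfl | rfl <;>
      simp only [q1, q2, q3, q4, q5, q6, hfw, hfv, h.a, h.b, h.g] at e' <;>
      first | rfl | (exfalso; omega)
  · intro i h1 h2 h3
    have : i = 2 ∨ i = 4 := by omega
    rcases this with rfl | rfl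
    · left
      show w0q xw c (c + 1) (c - 2) (c - 1) xv 3 = w0q xw c (c + 1) (c - 2) (c - 1) xv 2 + 1
      rw [q2, q3]
    · left
      show w0q xw c (c + 1) (c - 2) (c - 1) xv 5 = w0q xw c (c + 1) (c - 2) (c - 1) xv 4 + 1
      rw [q4, q5]
      ring
  · intro i h1 h2 h3
    have : i = 1 ∨ i = 3 ∨ i = 5 := by omega
    rcases this with rfl | rfl | rfl
    · left
      show f (w0q xw c (c + 1) (c - 2) (c - 1) xv 2) =
        f (w0q xw c (c + 1) (c - 2) (c - 1) xv 1) + 1
      rw [q1, q2, hfw]
      ring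
    · left
      show f (w0q xw c (c + 1) (c - 2) (c - 1) xv 4) =
        f (w0q xw c (c + 1) (c - 2) (c - 1) xv 3) + 1
      rw [q3, q4, h.g, h.a]
      ring
    · right
      show f (w0q xw c (c + 1) (c - 2) (c - 1) xv 5) =
        f (w0q xw c (c + 1) (c - 2) (c - 1) xv 6) + 1
      rw [q5, q6, h.b, hfv]
      ring
  · intro i h1 h2
    rcases hcase i h1 h2 with rfl | rfl | rfl | rfl | rfl | rfl
    · rw [q1, hfw, ry]
      unfold w0A w0B
      split_ifs <;> omega
    · rw [q2, c0]
      unfold w0A w0B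
      split_ifs <;> omega
    · rw [q3, c1, h.g, r1]
      unfold w0A w0B
      split_ifs <;> omega
    · rw [q4, cm2, h.a, r2]
      unfold w0A w0B
      split_ifs <;> omega
    · rw [q5, cm1, h.b, r0]
      unfold w0A w0B
      split_ifs <;> omega
    · rw [q6, hfv, rm]
      unfold w0A w0B
      split_ifs <;> omega
  · intro u hu1 hu2
    have e : u = 0 := by
      by_cases g : u + 1 = N
      · rw [if_pos g] at hu2
        unfold w0A at hu2
        rw [if_pos rfl, if_neg (by omega)] at hu2
        omega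
      · rw [if_neg g] at hu2
        unfold w0A at hu2
        split_ifs at hu2 <;> first | omega | (exfalso; assumption)
    subst e
    refine ⟨2, by norm_num, by norm_num, by norm_num, Or.inl ⟨?_, ?_⟩⟩
    · rw [q2, Nat.cast_zero, add_zero]
    · show w0q xw c (c + 1) (c - 2) (c - 1) xv 3 = c + ((0 : ℕ) : ZMod N) + 1
      rw [q3, Nat.cast_zero, add_zero]
  · intro u hu1 hu2
    have e : u = N - 1 ∨ u = 1 ∨ u + 1 = (f c - d).val := by
      by_cases g : u + 1 = N
      · omega
      · rw [if_neg g] at hu2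
        unfold w0B at hu2
        split_ifs at hu2 <;> omega
    rcases e with e | e | e
    · have e3 : d + (u : ZMod N) = d - 1 := by
        rw [e, Nat.cast_sub (by omega), ZMod.natCast_self, Nat.cast_one]
        ring
      refine ⟨5, by norm_num, by norm_num, by norm_num, Or.inr ⟨?_, ?_⟩⟩
      · rw [q5, h.b, e3]
        ring
      · show f (w0q xw c (c + 1) (c - 2) (c - 1) xv 6) = d + (u : ZMod N)
        rw [q6, hfv, e3]
    · refine ⟨3, by norm_num, by norm_num, by norm_num, Or.inl ⟨?_, ?_⟩⟩
      · rw [q3, h.g, e, Nat.cast_one]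
      · show f (w0q xw c (c + 1) (c - 2) (c - 1) xv 4) = d + (u : ZMod N) + 1
        rw [q4, h.a, e, Nat.cast_one]
        ring
    · have e3 : d + (u : ZMod N) + 1 = f c := by
        rw [at_pos d (f c), ← e]
        push_cast
        ring
      refine ⟨1, by norm_num, by norm_num, by norm_num, Or.inl ⟨?_, ?_⟩⟩
      · rw [q1, hfw, ← e3]
        ring
      · show f (w0q xw c (c + 1) (c - 2) (c - 1) xv 2) = d + (u : ZMod N) + 1
        rw [q2, e3]

end Pool.Agent.Helper51.M7

namespace Pool.Agent.Helper19.RG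

open Finset Pool.Agent.Helper19.CF Pool.Agent.Helper26.M7 Pool.Agent.Helper51.M7

variable {N : ℕ} [NeZero N] {f : Equiv.Perm (ZMod N)} {c d : ZMod N}

/-- The killing cut of the word `W0`. -/
theorem M7.w0 (hb : Bad f) (h : M7 f c d) (hw : (f.symm (f c - 1) - c).val % 2 = 1) :
    ∃ X p q r s, Side f X ∧ Box X c d p q r s ∧ (.inr (f c) : ZMod N ⊕ ZMod N) ∈ X ∧
      (∀ x, x ≠ c → ((.inl x : ZMod N ⊕ ZMod N) ∈ X ↔ (.inr (f x) : ZMod N ⊕ ZMod N) ∈ X)) ∧
      (.inr (f c - 1)) ∈ X ∧ (.inr (f c + 1)) ∈ X ∧ (∀ v ∈ m7 c d, v ∉ X) ∧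
      (.inr (d - 1)) ∉ X ∧ (.inl (f.symm (d - 1))) ∉ X ∧
      p % 2 = 0 ∧ q % 2 = 0 ∧ r % 2 = 0 ∧ s % 2 = 1 := by
  have hN := hb.hN
  have hodd := hb.hodd
  obtain ⟨hq, y5, yN, yodd, v0, vev⟩ := w0_qz hb h hw
  obtain ⟨Y, k, hk, k1, k6⟩ := hb.kill hq
  have c0 := pos_zero c
  have c1 := pos_one hN c
  have r1 := pos_one hN d
  have r2 := pos_two hN d
  have rm := pos_m1 hN d
  set xw := f.symm (f c - 1) with hxw
  set xv := f.symm (d - 1) with hxv
  have hfw : f xw = f c - 1 := by rw [hxw, Equiv.apply_symm_apply]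
  have hfv : f xv = d - 1 := by rw [hxv, Equiv.apply_symm_apply]
  have ry := Pool.Agent.Helper26.M7.pos_pred hN d (f c) (by omega)
  have q1 : w0q xw c (c + 1) (c - 2) (c - 1) xv 1 = xw := by simp [w0q]
  have q2 : w0q xw c (c + 1) (c - 2) (c - 1) xv 2 = c := by simp [w0q]
  have q3 : w0q xw c (c + 1) (c - 2) (c - 1) xv 3 = c + 1 := by simp [w0q]
  have q4 : w0q xw c (c + 1) (c - 2) (c - 1) xv 4 = c - 2 := by simp [w0q]
  have q5 : w0q xw c (c + 1) (c - 2) (c - 1) xv 5 = c - 1 := by simp [w0q]
  have q6 : w0q xw c (c + 1) (c - 2) (c - 1) xv 6 = xv := by simp [w0q]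
  have hnbr := hk.nbr hb
  -- the ends of the spokes
  have i1 := hk.exIn 1 (by norm_num) k1
  unfold Pool.Agent.Helper19.RG.ext at i1
  rw [if_neg (by norm_num), q1, hfw] at i1
  have hk2 : k = 2 ∨ k = 3 ∨ k = 4 ∨ k = 5 := by omega
  rcases hk2 with rfl | rfl | rfl | rfl
  · -- the star
    obtain ⟨n1, n2, n3, n4⟩ := hnbr.1 (by norm_num)
    rw [q2] at n1 n2 n3 n4
    have hcut := hk.cut.1 (by norm_num)
    rw [q2] at hcut
    have hoth := hk.other
    rw [q2] at hoth
    have o3 := hk.entOut 3 (by norm_num) (by norm_num)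
    have o3' := hk.exOut 3 (by norm_num) (by norm_num)
    have o4 := hk.entOut 4 (by norm_num) (by norm_num)
    have o4' := hk.exOut 4 (by norm_num) (by norm_num)
    have o5 := hk.entOut 5 (by norm_num) (by norm_num)
    have o5' := hk.exOut 5 (by norm_num) (by norm_num)
    have o6 := hk.entOut 6 (by norm_num) (by norm_num)
    have o6' := hk.exOut 6 (by norm_num) (by norm_num)
    unfold ent at o3 o4 o5 o6
    unfold Pool.Agent.Helper19.RG.ext at o3' o4' o5' o6'
    rw [if_neg (by norm_num), q3] at o3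
    rw [if_neg (by norm_num), q3, h.g] at o3'
    rw [if_pos (by norm_num), q4, h.a] at o4
    rw [if_pos (by norm_num), q4] at o4'
    rw [if_neg (by norm_num), q5] at o5
    rw [if_neg (by norm_num), q5, h.b] at o5'
    rw [if_pos (by norm_num), q6, hfv] at o6
    rw [if_pos (by norm_num), q6] at o6'
    obtain ⟨p, q, r, s, hbox⟩ := hk.side.box hN hcut.2 o5'
    refine ⟨Y, p, q, r, s, hk.side, hbox, hcut.1, hoth, n4, n3, ?_, o6, o6', ?_⟩
    · intro v hv
      rcases v with x | y
      · rw [mem_m7_l hN] at hv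
        rcases hv with rfl | rfl | rfl | rfl
        · exact o4'
        · exact o5
        · exact hcut.2
        · exact o3
      · rw [mem_m7_r hN] at hv
        rcases hv with rfl | rfl | rfl
        · exact o5'
        · exact o3'
        · exact o4
    · have hends := box_ends hb hbox hk.bd
      unfold endB at hends
      rw [if_pos (by norm_num), q6] at hends
      simp only [qC] at hends
      have g1 := (hbox.memB _).mp n4
      have g2 := (hbox.memB _).mp n3
      have g3 := (hbox.memB _).mp hcut.1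
      rw [hbox.memB, rm] at o6
      rw [hbox.memB, r1] at o3'
      rw [hbox.memB, r2] at o4
      rw [ry] at g1
      have ry' := Pool.Agent.Helper26.M7.pos_succ hN d (f c) (by omega)
      rw [ry'] at g2
      have h1 := hbox.p1
      have h2 := hbox.r1
      have h3 := hbox.pq
      have h4 := hbox.rs
      have h5 := hbox.qN
      have h6 := hbox.sN
      rw [pos_nat c (by omega), pos_nat c (by omega), pos_nat d (by omega), pos_nat d (by omega)]
        at hends
      unfold w0A w0B at hends
      simp only [decide_eq_decide] at hends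
      obtain ⟨t1, t2, t3, t4⟩ := hends
      rw [if_neg (by omega), if_neg v0] at t1 t2
      rw [if_pos (by omega), if_neg v0] at t3
      rw [if_neg (by omega), if_neg v0] at t4
      omega
  · -- the third spoke of the side
    exfalso
    have b1 := hk.exIn 2 (by norm_num) (by norm_num)
    unfold Pool.Agent.Helper19.RG.ext at b1
    rw [if_pos (by norm_num), q2] at b1
    have hheavy := hk.heavy.2 (by norm_num)
    have hA := hk.parA
    have hB := hk.parB
    have h20 := Pool.Agent.Helper56.M7.two_ne' (N := N) (by omega)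
    have eA : (univ.filter fun x : ZMod N => decide (w0A (x - c).val % 2 = 0) =
        decide (w0A (x + 1 - c).val % 2 = 0) ∧ (.inl x : ZMod N ⊕ ZMod N) ∈ Y) = {c} := by
      ext x
      rw [mem_filter, mem_singleton]
      constructor
      · rintro ⟨-, g1, g2⟩
        obtain ⟨i, g3, g4, g5, g6⟩ := hq.mA x g1
        have g7 := hk.stepA g3 g4 g5
        have : i = 2 ∨ i = 4 := by omega
        rcases this with rfl | rfl
        · rcases g6 with ⟨g8, g9⟩ | ⟨g8, g9⟩
          · rw [q2] at g8
            exact g8.symm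
          · exfalso
            have g10 : w0q xw c (c + 1) (c - 2) (c - 1) xv 3 = x := g9
            rw [q3] at g10
            rw [q2] at g8
            exact h20 (by linear_combination g10 - g8)
        · exfalso
          rcases g6 with ⟨g8, g9⟩ | ⟨g8, g9⟩
          · rw [g8] at g7
            have := g7.1.mp g2
            omega
          · rw [g9] at g7
            have := g7.2.mp g2
            omega
      · rintro rfl
        refine ⟨mem_univ _, ?_, b1⟩
        rw [c0, c1]
        rfl
    have eB : (univ.filter fun x : ZMod N => decide (w0B (f c - d).val (x - d).val % 2 = 0) =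
        decide (w0B (f c - d).val (x + 1 - d).val % 2 = 0) ∧
          (.inr x : ZMod N ⊕ ZMod N) ∈ Y) = {f c - 1} := by
      ext x
      rw [mem_filter, mem_singleton]
      constructor
      · rintro ⟨-, g1, g2⟩
        obtain ⟨i, g3, g4, g5, g6⟩ := hq.mB x g1
        have g7 := hk.stepB g3 g4 g5
        have : i = 1 ∨ i = 3 ∨ i = 5 := by omega
        rcases this with rfl | hi
        · rcases g6 with ⟨g8, g9⟩ | ⟨g8, g9⟩
          · rw [q1, hfw] at g8
            exact g8.symm
          · exfalso
            have g10 : f (w0q xw c (c + 1) (c - 2) (c - 1) xv 2) = x := g9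
            rw [q2] at g10
            rw [q1, hfw] at g8
            exact h20 (by linear_combination g10 - g8)
        · exfalso
          rcases g6 with ⟨g8, g9⟩ | ⟨g8, g9⟩
          · rw [g8] at g7
            have := g7.1.mp g2
            omega
          · rw [g9] at g7
            have := g7.2.mp g2
            omega
      · rintro rfl
        refine ⟨mem_univ _, ?_, i1⟩
        rw [ry, sub_add_cancel, decide_eq_decide]
        unfold w0B
        rw [if_pos (by omega), if_neg (by omega)]
        omega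
    rw [eA, card_singleton] at hA
    rw [eB, card_singleton] at hB
    omega
  · -- the first spoke of the side
    exfalso
    have b1 := hk.exIn 2 (by norm_num) (by norm_num)
    have b2 := hk.exIn 3 (by norm_num) (by norm_num)
    have b3 := hk.entOut 5 (by norm_num) (by norm_num)
    have b4 := hk.exOut 5 (by norm_num) (by norm_num)
    unfold Pool.Agent.Helper19.RG.ext at b1 b2 b4
    unfold ent at b3
    rw [if_pos (by norm_num), q2] at b1
    rw [if_neg (by norm_num), q3, h.g] at b2
    rw [if_neg (by norm_num), q5] at b3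
    rw [if_neg (by norm_num), q5, h.b] at b4
    have b5 : (.inr (d + 1 - 1) : ZMod N ⊕ ZMod N) ∉ Y := by
      rw [add_sub_cancel_right]
      exact b4
    have t1 := hk.bd _ b1 _ b3 (adjA' hb c)
    have t2 := hk.bd _ b2 _ b5 (adjB' hb (d + 1))
    have t3 := t1.trans t2.symm
    simp only [qC] at t3
    rw [c0, r1] at t3
    unfold w0A w0B at t3
    rw [if_pos rfl, if_neg (by omega)] at t3
    simp at t3
  · -- the second spoke of the side
    exfalso
    have b2 := hk.exIn 3 (by norm_num) (by norm_num)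
    unfold Pool.Agent.Helper19.RG.ext at b2
    rw [if_neg (by norm_num), q3, h.g] at b2
    obtain ⟨n1, n2, n3, n4⟩ := hnbr.2 (by norm_num)
    rw [q5, h.b] at n3
    exact n3 b2

end Pool.Agent.Helper19.RG
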